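import Pool.Agent.Lib.MP_60077b_lc.Main

/-- Conjugacy of finite sets of nonempty words via an arbitrary nonempty set `Z` is undecidable,
already over one fixed finite alphabet. -/
theorem Pool.Agent.Results.MP_60077b_lc.Q1Undecidable.result :
    ∃ m : ℕ, ¬ ∃ f : List (List (Fin m)) × List (List (Fin m)) → Bool, Computable f ∧
      ∀ X Y : List (List (Fin m)), (∀ w ∈ X ++ Y, w ≠ []) →
        (f (X, Y) = true ↔ ∃ Z : Set (List (Fin m)), Z.Nonempty ∧
          Set.image2 (· ++ ·) {w | w ∈ X} Z = Set.image2 (· ++ ·) Z {w | w ∈ Y}) := by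
  obtain ⟨m, h⟩ := Pool.Agent.Lib.MP_60077b_lc.inseparable
  refine ⟨m, fun ⟨f, h1, h2⟩ => h f h1 (fun X Y hw hZ => (h2 X Y hw).mpr ?_)
    fun X Y hw hf => (h2 X Y hw).mp hf⟩
  obtain ⟨Z, -, hZ⟩ := hZ
  exact ⟨Z, hZ⟩
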